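import Mathlib
import Pool.Agent.V11310.CL.Open
import Pool.Agent.TH167.SH.Conv

set_option autoImplicit false

/-!
# Prime divisors whose class is in the closure of the known classes under collisions

Let `k` be a field of characteristic zero and `X` the blow-up of the plane at `s ≥ 4` generic
points. Let `C` be a prime divisor of class `(d, w)` on `X`. If `(d, w)` is reached, or finitely many
reflections carry it to a standard class which is reached, then `h¹ (C) = 0`. For every prime divisor
`C`: `h¹ (C) = 0`, or finitely many quadratic transformations carry `(d, w)` to a standard class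
`(d1, w1)` with `h⁰ (d1, w1) = h⁰ (C)`, which is special and which is not reached.

`Reached N0 d w` (`Pool.Agent.V11310.CL.Reached`): the multiset of the multiplicities `w` belongs, in
degree `d`, to the smallest class of multisets of multiplicities with one of the two signs (no curves,
independent conditions) which contains the comparable, the large and the good classes (`Base`) and is
closed under collisions (a point of multiplicity `μ` may be replaced by points `M'` if `M'` is in the
class in degree `μ - 1`), quadratic transformations, doubling (four points of multiplicity `m` for one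
point of the multiplicities `2 m` and `2 m + 1`), adding or removing points and changing the degree.
-/

namespace Pool.Agent.Results.MP_0dccba_ag.PrimeCollisionClosure

open MvPolynomial Pool.Agent.TH167.SHDefs
open Pool.Agent.Y536.SH (Standard)
open Pool.Agent.V11310.CL

/-- `h¹` of the class `d H - ∑ w i E i`: the dimension of the linear system minus the virtual one. -/
noncomputable def hOne {k : Type} [Field k] {s : ℕ} (P : Fin s → Fin 2 → k) (d : ℕ)
    (w : Fin s → ℕ) : ℤ := dimL P d w - virtdim d w

/-- An effective class of the expected dimension has `h¹ = 0`. -/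
theorem hOne_of {k : Type} [Field k] {s : ℕ} {P : Fin s → Fin 2 → k} {d : ℕ} {w : Fin s → ℕ}
    (h : Pool.Agent.H932R3.ExpDim k w P d) {C : MvPolynomial (Fin 3) k} (hC : Curve P C d w) :
    hOne P d w = 0 := by
  obtain ⟨h1, h2, h3⟩ := Pool.Agent.TH167.SH.curve_iff.1 hC
  have hmem : C ∈ Pool.Agent.W609.CR.VS (fun j => Pool.Agent.W609.CR.aff (P j)) w d :=
    (Pool.Agent.TH167.SH.mem_VS _ _ _ _).2 ⟨h2, fun j => (h3 j).1⟩
  have hfin := Pool.Agent.W609.CR.vs_fin (fun j => Pool.Agent.W609.CR.aff (P j)) w d
  have hpos : 0 < Module.finrank k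
      ↥(Pool.Agent.W609.CR.VS (fun j => Pool.Agent.W609.CR.aff (P j)) w d) :=
    Module.finrank_pos_iff.2 ⟨⟨C, hmem⟩, 0, fun h7 => h1.ne_zero (congrArg Subtype.val h7)⟩
  rw [← Pool.Agent.TH167.SH.sys_eq] at hpos
  have e1 : Module.finrank k ↥(sys P d w) =
      Nat.choose (d + 2) 2 - ∑ i, Nat.choose (w i + 1) 2 := h
  have e2 : ∑ i, ((w i + 1).choose 2 : ℤ) = ((∑ i, Nat.choose (w i + 1) 2 : ℕ) : ℤ) := by
    push_cast
    rfl
  unfold hOne dimL virtdim
  rw [e2]
  omega

theorem result : ∃ N0 : ℕ, ∀ (k : Type) [Field k] [CharZero k] (s : ℕ), 4 ≤ s →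
    ∀ (P : Fin s → Fin 2 → k),
      AlgebraicIndependent ℚ (fun ij : Fin s × Fin 2 => P ij.1 ij.2) →
      ∀ (d : ℕ) (w : Fin s → ℕ) (C : MvPolynomial (Fin 3) k), Curve P C d w →
        (Base N0 d w → Reached N0 d w) ∧
        (Covered N0 d w → hOne P d w = 0) ∧
        (hOne P d w = 0 ∨ ∃ (d1 : ℕ) (w1 : Fin s → ℕ),
          Relation.ReflTransGen Quadratic (d, w) (d1, w1) ∧ Standard d1 w1 ∧
          Special P d1 w1 ∧ dimL P d1 w1 = dimL P d w ∧ ¬ Reached N0 d1 w1) := by
  obtain ⟨N0, hN0⟩ := Pool.Agent.Y939.NC.reg_exp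
  refine ⟨N0, fun k _ _ s hs P hP d w C hC => ⟨reached_of_base,
    fun h => hOne_of (covered_exp hN0 hs h hP) hC, ?_⟩⟩
  obtain ⟨r, rfl⟩ : ∃ r, s = r + 4 := ⟨s - 4, by omega⟩
  by_cases h : dimL P d w = virtdim d w
  · left
    unfold hOne
    omega
  · right
    obtain ⟨d1, w1, h1, h2, h3, h4, h5⟩ := Pool.Agent.Y536.SH.prime_full
      (Q := fun d' w' => Reached N0 d' w')
      (fun hP d1 w1 hr hG => reached_exp hN0 hG hP) hP hC h
    exact ⟨d1, w1, h1, h2, h3, h4, h5⟩

end Pool.Agent.Results.MP_0dccba_ag.PrimeCollisionClosure
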