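import Mathlib
import Pool.Agent.V11263.SH.Comp

set_option autoImplicit false

/-!
# Prime divisors with `h¹ ≠ 0` have a special standard form which is not comparable with a regular vector

Let `k` be a field of characteristic zero and `X` the blow-up of the plane at `s ≥ 4` generic
points. Let `C` be a prime divisor of class `(d, w)` on `X`. Then `h¹ (C) = 0`, or finitely many
quadratic transformations carry `(d, w)` to a standard class `(d1, w1)` with
`h⁰ (d1, w1) = h⁰ (C)`, which is special and which is neither comparable with a regular vector nor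
large nor good. Every effective class, prime or not, has `h¹ = 0` if it is comparable with a regular
vector, or in the Weyl group orbit of a standard class which is comparable, large or good.

A vector `v` of multiplicities on `k` points is regular in degree `d` (`RegularAt`) if it is one of
the vectors `Regular` of `Pool.Agent.Y939.NC`, or `k ≥ 10`, all its entries are `m` or `m + 1`, and
`m + 1 ≤ k - 6 √k + 11` or `k` is a square or `2 d + 3 - √k - 2 (∑ v) / √k` is outside an interval
around zero of length less than two, or `k ≥ 10` and `(d; v)` is in one of the windows `Window`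
(arbitrary entries). A class `(d; w)` is `Comparable` if, for a vector `v` regular in degree `d` on
some `k` of the points, either `w ≥ v` there and `χ (d; v) ≤ 0` (no condition at the other points), or
`w ≤ v` there, `w ≤ 1` at the other points, and `χ (d; v) ≥ 0` or `w = v` there.
-/

namespace Pool.Agent.Results.MP_0dccba_ag.PrimeComparableForms

open MvPolynomial Pool.Agent.TH167.SHDefs
open Pool.Agent.Y536.SH (Standard)
open Pool.Agent.V11263.SH (Comparable Known)

/-- `h¹` of the class `d H - ∑ w i E i`: the dimension of the linear system minus the virtual one. -/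
noncomputable def hOne {k : Type} [Field k] {s : ℕ} (P : Fin s → Fin 2 → k) (d : ℕ)
    (w : Fin s → ℕ) : ℤ := dimL P d w - virtdim d w

/-- The class `d H - ∑ w i E i` is effective: the linear system is not empty. -/
def Effective {k : Type} [Field k] {s : ℕ} (P : Fin s → Fin 2 → k) (d : ℕ) (w : Fin s → ℕ) : Prop :=
  0 ≤ dimL P d w

/-- The reflection of the class `a = (d; w)`, `d H - ∑ w l E l`, in the class
`H - E (i 0) - E (i 1) - E (i 2)`: with `δ = d - w (i 0) - w (i 1) - w (i 2)`, the numbers
`d`, `w (i 0)`, `w (i 1)`, `w (i 2)` are increased by `δ`. -/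
def reflect {n : ℕ} (i : Fin 3 → Fin n) (a : ℤ × (Fin n → ℤ)) : ℤ × (Fin n → ℤ) :=
  (a.1 + (a.1 - a.2 (i 0) - a.2 (i 1) - a.2 (i 2)),
    fun l => a.2 l + if l = i 0 ∨ l = i 1 ∨ l = i 2 then a.1 - a.2 (i 0) - a.2 (i 1) - a.2 (i 2)
      else 0)

/-- Finitely many reflections carry `(d; w)` to `(d'; w')`. -/
def Carries {n : ℕ} (d : ℕ) (w : Fin n → ℕ) (d' : ℕ) (w' : Fin n → ℕ) : Prop :=
  Relation.ReflTransGen
    (fun a b : ℤ × (Fin n → ℤ) => ∃ i : Fin 3 → Fin n, Function.Injective i ∧ b = reflect i a)
    ((d : ℤ), fun l => (w l : ℤ)) ((d' : ℤ), fun l => (w' l : ℤ))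

theorem hOne_of {k : Type} [Field k] {s : ℕ} {P : Fin s → Fin 2 → k} {d : ℕ} {w : Fin s → ℕ}
    (h : Pool.Agent.H932R3.ExpDim k w P d) (h0 : Effective P d w) : hOne P d w = 0 := by
  have h1 : Module.finrank k ↥(sys P d w) =
      Nat.choose (d + 2) 2 - ∑ i, Nat.choose (w i + 1) 2 := h
  have h2 : ∑ i, ((w i + 1).choose 2 : ℤ) = ((∑ i, Nat.choose (w i + 1) 2 : ℕ) : ℤ) := by
    push_cast
    rfl
  unfold Effective dimL at h0
  unfold hOne dimL virtdim
  rw [h2]
  omega

/-- There is `N0` such that over every field of characteristic zero, at `s ≥ 4` generic points: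
(1) every effective class which is comparable has `h¹ = 0`; (2) so has every effective class which
finitely many reflections carry to a standard class which is comparable, large or good; (3) for every
prime divisor `C` either `h¹ (C) = 0`, or quadratic transformations carry it to a special standard class
of the same dimension which is neither comparable nor large nor good. -/
theorem result : ∃ N0 : ℕ, ∀ (k : Type) [Field k] [CharZero k] (s : ℕ), 4 ≤ s →
    ∀ (P : Fin s → Fin 2 → k),
      AlgebraicIndependent ℚ (fun ij : Fin s × Fin 2 => P ij.1 ij.2) →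
      ∀ (d : ℕ) (w : Fin s → ℕ),
        (Comparable N0 d w → Effective P d w → hOne P d w = 0) ∧
        ((∃ (d' : ℕ) (w' : Fin s → ℕ), Carries d w d' w' ∧ Standard d' w' ∧ Known N0 d' w') →
          Effective P d w → hOne P d w = 0) ∧
        ∀ C : MvPolynomial (Fin 3) k, Curve P C d w →
          hOne P d w = 0 ∨ ∃ (d1 : ℕ) (w1 : Fin s → ℕ),
            Relation.ReflTransGen Quadratic (d, w) (d1, w1) ∧ Standard d1 w1 ∧
            Special P d1 w1 ∧ dimL P d1 w1 = dimL P d w ∧ ¬ Known N0 d1 w1 := by
  obtain ⟨N0, hN0⟩ := Pool.Agent.Y939.NC.reg_exp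
  refine ⟨N0, fun k _ _ s hs P hP d w => ⟨fun hc h0 => ?_, ?_, fun C hC => ?_⟩⟩
  · exact hOne_of (Pool.Agent.V11263.SH.comparable_exp hN0 hc hP) h0
  · rintro ⟨d', w', hc, hst, hG⟩ h0
    exact hOne_of (Pool.Agent.TH442.NF.up_enef hP hc (Pool.Agent.TH442.NF.enef_of_std hs P hst)
      (Pool.Agent.V11263.SH.known_exp hN0 hs hst hG hP)) h0
  · obtain ⟨r, rfl⟩ : ∃ r, s = r + 4 := ⟨s - 4, by omega⟩
    by_cases h : dimL P d w = virtdim d w
    · left
      unfold hOne
      omega
    · right
      obtain ⟨d1, w1, h1, h2, h3, h4, h5⟩ := Pool.Agent.Y536.SH.prime_full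
        (Q := fun d' w' => Known N0 d' w')
        (fun hP d1 w1 hr hG => Pool.Agent.V11263.SH.known_exp hN0 hs hr hG hP) hP hC h
      exact ⟨d1, w1, h1, h2, h3, h4, h5⟩

end Pool.Agent.Results.MP_0dccba_ag.PrimeComparableForms
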